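import Pool.Agent.Lib.MP_675c19_co.Game

/-! # From a bounded winning position to a strategy (MP_675c19_co), helper20 -/

set_option autoImplicit false

namespace Pool.Agent.Lib.MP_675c19_co

open Function

section

variable {V : Type}

/-- points owned by the player `k` in the position `χ` (0 free, 1 P1, 2 P2) -/
def own (χ : V → Fin 3) (k : Fin 3) : Set V := {z | χ z = k}

open Classical in
/-- the position after the player `k` has claimed `x` -/
noncomputable def put (χ : V → Fin 3) (x : V) (k : Fin 3) : V → Fin 3 := Function.update χ x k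

theorem put_same (χ : V → Fin 3) (x : V) (k : Fin 3) : put χ x k x = k := by
  classical
  simp [put]

theorem put_ne (χ : V → Fin 3) {x z : V} (k : Fin 3) (h : z ≠ x) : put χ x k z = χ z := by
  classical
  simp [put, h]

theorem own_put (χ : V → Fin 3) (x : V) (k : Fin 3) : own (put χ x k) k = insert x (own χ k) := by
  ext z
  by_cases h : z = x
  · subst h
    simp [own, put_same]
  · simp [own, put_ne χ k h, h]

theorem own_put_ne (χ : V → Fin 3) {x : V} {j k : Fin 3} (hx : χ x = 0) (hj : j ≠ 0) (hk : j ≠ k) :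
    own (put χ x k) j = own χ j := by
  ext z
  by_cases h : z = x
  · subst h
    simp only [own, put_same, Set.mem_ofPred_eq, hx]
    constructor
    · intro h1
      exact absurd h1.symm hk
    · intro h1
      exact absurd h1.symm hj
  · simp [own, put_ne χ k h]

/-- P2 to move, P1 wins within `n` rounds -/
def W2 (lines : Set (Set V)) : ℕ → (V → Fin 3) → Prop
  | 0, _ => False
  | n + 1, χ => ∀ y, χ y = 0 → HasLine lines (own (put χ y 2) 2) ∨
      ∃ x, put χ y 2 x = 0 ∧ ¬ HasLine lines (own (put (put χ y 2) x 1) 1) ∧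
        W2 lines n (put (put χ y 2) x 1)

variable (lines : Set (Set V)) (N : ℕ) (x0 : V)

open Classical in
/-- answer of P1 in the position `χ` with P1 to move -/
noncomputable def ans1 (n : ℕ) (χ : V → Fin 3) : V :=
  if h : ∃ x, χ x = 0 ∧ ¬ HasLine lines (own (put χ x 1) 1) ∧ W2 lines n (put χ x 1) then h.choose
  else if h' : ∃ x, χ x = 0 then h'.choose else x0

theorem ans1_free (n : ℕ) (χ : V → Fin 3) (h : ∃ x, χ x = 0) : χ (ans1 lines x0 n χ) = 0 := by
  unfold ans1
  split_ifs with h1
  · exact h1.choose_spec.1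
  · exact h.choose_spec

theorem ans1_spec (n : ℕ) (χ : V → Fin 3)
    (h : ∃ x, χ x = 0 ∧ ¬ HasLine lines (own (put χ x 1) 1) ∧ W2 lines n (put χ x 1)) :
    ¬ HasLine lines (own (put χ (ans1 lines x0 n χ) 1) 1) ∧
      W2 lines n (put χ (ans1 lines x0 n χ) 1) := by
  unfold ans1
  rw [dif_pos h]
  exact h.choose_spec.2

/-- position after the reply of P1; the list holds the moves of P2, the last one first -/
noncomputable def posR : List V → (V → Fin 3)
  | [] => put (fun _ => 0) x0 1
  | y :: ys => put (put (posR ys) y 2) (ans1 lines x0 (N - (ys.length + 1)) (put (posR ys) y 2)) 1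

/-- move of P1 -/
noncomputable def moveR : List V → V
  | [] => x0
  | y :: ys => ans1 lines x0 (N - (ys.length + 1)) (put (posR lines N x0 ys) y 2)

theorem posR_cons (y : V) (ys : List V) : posR lines N x0 (y :: ys) =
    put (put (posR lines N x0 ys) y 2) (moveR lines N x0 (y :: ys)) 1 := rfl

/-- the strategy -/
noncomputable def strat (bs : List V) : V := moveR lines N x0 bs.reverse

/-- history of P2's moves, the last one first -/
def hist (b : ℕ → V) (n : ℕ) : List V := ((List.range n).map b).reverse

theorem hist_succ (b : ℕ → V) (n : ℕ) : hist b (n + 1) = b n :: hist b n := by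
  simp [hist, List.range_succ]

theorem length_hist (b : ℕ → V) (n : ℕ) : (hist b n).length = n := by
  simp [hist]

theorem move1_strat (b : ℕ → V) (n : ℕ) :
    move1 (strat lines N x0) b n = moveR lines N x0 (hist b n) := rfl

theorem claimed1_succ (s : List V → V) (b : ℕ → V) (n : ℕ) :
    claimed1 s b (n + 1) = insert (move1 s b n) (claimed1 s b n) := by
  ext v
  simp only [claimed1, Set.mem_ofPred_eq, Set.mem_insert_iff]
  constructor
  · rintro ⟨i, hi, rfl⟩
    rcases Nat.lt_succ_iff_lt_or_eq.1 hi with h | h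
    · exact Or.inr ⟨i, h, rfl⟩
    · exact Or.inl (by rw [h])
  · rintro (h | ⟨i, hi, rfl⟩)
    · exact ⟨n, Nat.lt_succ_self n, h.symm⟩
    · exact ⟨i, Nat.lt_succ_of_lt hi, rfl⟩

theorem claimed2_succ (b : ℕ → V) (n : ℕ) :
    claimed2 b (n + 1) = insert (b n) (claimed2 b n) := by
  ext v
  simp only [claimed2, Set.mem_ofPred_eq, Set.mem_insert_iff]
  constructor
  · rintro ⟨i, hi, rfl⟩
    rcases Nat.lt_succ_iff_lt_or_eq.1 hi with h | h
    · exact Or.inr ⟨i, h, rfl⟩
    · exact Or.inl (by rw [h])
  · rintro (h | ⟨i, hi, rfl⟩)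
    · exact ⟨n, Nat.lt_succ_self n, h.symm⟩
    · exact ⟨i, Nat.lt_succ_of_lt hi, rfl⟩

theorem exists_free [Infinite V] (χ : V → Fin 3) (h1 : (own χ 1).Finite) (h2 : (own χ 2).Finite) :
    ∃ x, χ x = 0 := by
  obtain ⟨x, hx⟩ := (h1.union h2).infinite_compl.nonempty
  refine ⟨x, ?_⟩
  simp only [own, Set.mem_compl_iff, Set.mem_union, Set.mem_ofPred_eq, not_or] at hx
  have h3 := hx.1
  have h4 := hx.2
  generalize χ x = c at *
  fin_cases c
  · rfl
  · exact absurd rfl h3
  · exact absurd rfl h4

theorem finite_claimed1 (s : List V → V) (b : ℕ → V) (n : ℕ) : (claimed1 s b n).Finite := by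
  induction n with
  | zero => convert Set.finite_empty; ext v; simp [claimed1]
  | succ n ih => rw [claimed1_succ]; exact ih.insert _

theorem finite_claimed2 (b : ℕ → V) (n : ℕ) : (claimed2 b n).Finite := by
  induction n with
  | zero => convert Set.finite_empty; ext v; simp [claimed2]
  | succ n ih => rw [claimed2_succ]; exact ih.insert _

theorem eq_zero_of_notMem (χ : V → Fin 3) (x : V) (h : x ∉ own χ 1 ∪ own χ 2) : χ x = 0 := by
  simp only [own, Set.mem_union, Set.mem_ofPred_eq, not_or] at h
  have h3 := h.1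
  have h4 := h.2
  generalize χ x = c at *
  fin_cases c
  · rfl
  · exact absurd rfl h3
  · exact absurd rfl h4

theorem notMem_of_eq_zero (χ : V → Fin 3) (x : V) (h : χ x = 0) : x ∉ own χ 1 ∪ own χ 2 := by
  simp [own, h]

variable {b : ℕ → V}

theorem pos_spec [Infinite V]
    (hb : ∀ n, b n ∉ claimed1 (strat lines N x0) b (n + 1) ∪ claimed2 b n) (n : ℕ) :
    own (posR lines N x0 (hist b n)) 1 = claimed1 (strat lines N x0) b (n + 1) ∧
    own (posR lines N x0 (hist b n)) 2 = claimed2 b n ∧
    move1 (strat lines N x0) b n ∉ claimed1 (strat lines N x0) b n ∪ claimed2 b n := by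
  induction n with
  | zero =>
    have h0 : posR lines N x0 (hist b 0) = put (fun _ => 0) x0 1 := rfl
    have h1 : move1 (strat lines N x0) b 0 = x0 := rfl
    have h2 : claimed1 (strat lines N x0) b 0 = ∅ := by ext v; simp [claimed1]
    have h3 : claimed2 b 0 = ∅ := by ext v; simp [claimed2]
    refine ⟨?_, ?_, ?_⟩
    · rw [h0, own_put, claimed1_succ, h1, h2]
      congr 1
      ext z
      simp [own]
    · rw [h0, own_put_ne (fun _ => (0 : Fin 3)) (x := x0) (j := 2) (k := 1) rfl (by decide)
        (by decide), h3]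
      ext z
      simp [own]
    · rw [h2, h3]
      simp
  | succ n ih =>
    obtain ⟨i1, i2, i3⟩ := ih
    have hbn := hb n
    rw [← i1, ← i2] at hbn
    have hz := eq_zero_of_notMem _ _ hbn
    have hm : move1 (strat lines N x0) b (n + 1) = moveR lines N x0 (b n :: hist b n) := by
      rw [move1_strat, hist_succ]
    have ho1 : own (put (posR lines N x0 (hist b n)) (b n) 2) 1 =
        claimed1 (strat lines N x0) b (n + 1) := by
      rw [own_put_ne _ hz (by decide) (by decide), i1]
    have ho2 : own (put (posR lines N x0 (hist b n)) (b n) 2) 2 = claimed2 b (n + 1) := by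
      rw [own_put, i2, claimed2_succ]
    have hfree : ∃ x, put (posR lines N x0 (hist b n)) (b n) 2 x = 0 := by
      apply exists_free
      · rw [ho1]; exact finite_claimed1 _ _ _
      · rw [ho2]; exact finite_claimed2 _ _
    have hz2 : put (posR lines N x0 (hist b n)) (b n) 2 (moveR lines N x0 (b n :: hist b n)) = 0 :=
      ans1_free lines x0 _ _ hfree
    refine ⟨?_, ?_, ?_⟩
    · rw [hist_succ, posR_cons, own_put, ho1, claimed1_succ _ _ (n + 1), hm]
    · rw [hist_succ, posR_cons, own_put_ne _ hz2 (by decide) (by decide), ho2]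
    · rw [hm, ← ho1, ← ho2]
      exact notMem_of_eq_zero _ _ hz2

theorem isP1Win_of_W2 [Infinite V] (h0 : ¬ HasLine lines {x0})
    (h : W2 lines N (put (fun _ => 0) x0 1)) : IsP1Win lines := by
  refine ⟨strat lines N x0, fun b hb => ⟨fun n => (pos_spec lines N x0 hb n).2.2, ?_⟩⟩
  by_contra hcon
  have key : ∀ n, n ≤ N → W2 lines (N - n) (posR lines N x0 (hist b n)) ∧
      ¬ HasLine lines (claimed1 (strat lines N x0) b (n + 1)) := by
    intro n
    induction n with
    | zero =>
      intro _
      refine ⟨h, ?_⟩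
      have h1 : claimed1 (strat lines N x0) b (0 + 1) = {x0} := by
        rw [claimed1_succ]
        have h2 : claimed1 (strat lines N x0) b 0 = ∅ := by ext v; simp [claimed1]
        rw [h2]
        simp [move1, strat, moveR]
      rw [h1]
      exact h0
    | succ n ih =>
      intro hn
      obtain ⟨hw, hl⟩ := ih (by omega)
      obtain ⟨s1, s2, s3⟩ := pos_spec lines N x0 hb n
      obtain ⟨t1, t2, t3⟩ := pos_spec lines N x0 hb (n + 1)
      have hbn := hb n
      rw [← s1, ← s2] at hbn
      have hz := eq_zero_of_notMem _ _ hbn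
      obtain ⟨m, hm⟩ : ∃ m, N - n = m + 1 := ⟨N - n - 1, by omega⟩
      rw [hm] at hw
      have hm' : N - (n + 1) = m := by omega
      have ho2 : own (put (posR lines N x0 (hist b n)) (b n) 2) 2 = claimed2 b (n + 1) := by
        rw [own_put, s2, claimed2_succ]
      rcases hw (b n) hz with h1 | h1
      · exact absurd ⟨n + 1, by rw [← ho2]; exact h1, hl⟩ hcon
      · have h2 := ans1_spec lines x0 m _ h1
        rw [← t1, hist_succ, posR_cons, hm']
        have h3 : moveR lines N x0 (b n :: hist b n) =
            ans1 lines x0 m (put (posR lines N x0 (hist b n)) (b n) 2) := by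
          show ans1 lines x0 (N - ((hist b n).length + 1)) _ = _
          rw [length_hist, hm']
        rw [h3]
        exact ⟨h2.2, h2.1⟩
  have h1 := (key N le_rfl).1
  rw [Nat.sub_self] at h1
  exact h1

end

end Pool.Agent.Lib.MP_675c19_co
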