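import Pool.Agent.Lib.MP_675c19_co.Fibre
import Pool.Agent.Lib.MP_675c19_co.Strategy

/-! # The board `Fin 7 × ℚ` and its lines (MP_675c19_co), helper20 -/

set_option autoImplicit false

namespace Pool.Agent.Lib.MP_675c19_co

/-- points of the board: seven cells over every rational number -/
abbrev Pt := Fin 7 × ℚ

/-- the points over `p` given by a bit mask -/
def fs (p : ℚ) (a : ℕ) : Set Pt := {z | z.2 = p ∧ a.testBit z.1 = true}

/-- the lines: three points over three different numbers, and bad pairs of subsets over two -/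
def theLines : Set (Set Pt) :=
  {L | (∃ u v w : Pt, u.2 < v.2 ∧ v.2 < w.2 ∧ L = {u, v, w}) ∨
    ∃ (p q : ℚ) (a b : ℕ), p < q ∧ a < 128 ∧ b < 128 ∧ lo a &&& up b ≠ 0 ∧ L = fs p a ∪ fs q b}

theorem fs_finite (p : ℚ) (a : ℕ) : (fs p a).Finite := by
  apply (Set.finite_range (fun x : Fin 7 => ((x, p) : Pt))).subset
  rintro ⟨x, q⟩ ⟨h1, -⟩
  exact ⟨x, by simp only at h1; rw [h1]⟩

theorem theLines_finite : ∀ L ∈ theLines, L.Finite := by
  rintro L (⟨u, v, w, -, -, rfl⟩ | ⟨p, q, a, b, -, -, -, -, rfl⟩)
  · exact Set.toFinite _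
  · exact (fs_finite p a).union (fs_finite q b)

/-! ## transitivity -/

/-- rotate all fibres and shift the base -/
def shift (s : Fin 7) (r : ℚ) : Equiv.Perm Pt :=
  (Equiv.addRight s).prodCongr (Equiv.addRight r)

theorem shift_apply (s : Fin 7) (r : ℚ) (z : Pt) : shift s r z = (z.1 + s, z.2 + r) := rfl

theorem shift_symm (s : Fin 7) (r : ℚ) : (shift s r).symm = shift (-s) (-r) := by
  ext z <;> simp [shift, Equiv.prodCongr]

theorem image_fs (s : Fin 7) (r p : ℚ) (a : ℕ) :
    shift s r '' fs p a = fs (p + r) (rotm s a) := by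
  ext z
  rw [Equiv.image_eq_preimage_symm, Set.mem_preimage, shift_symm, shift_apply]
  simp only [fs, Set.mem_ofPred_eq]
  rw [testBit_rotm, ← sub_eq_add_neg, ← sub_eq_add_neg, sub_eq_iff_eq_add]

theorem shift_mem {L : Set Pt} (s : Fin 7) (r : ℚ) (h : L ∈ theLines) :
    shift s r '' L ∈ theLines := by
  rcases h with ⟨u, v, w, h1, h2, rfl⟩ | ⟨p, q, a, b, h1, h2, h3, h4, rfl⟩
  · refine Or.inl ⟨shift s r u, shift s r v, shift s r w, ?_, ?_, ?_⟩
    · simp only [shift_apply]; linarith
    · simp only [shift_apply]; linarith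
    · rw [Set.image_insert_eq, Set.image_pair]
  · refine Or.inr ⟨p + r, q + r, rotm s a, rotm s b, by linarith, rotm_lt _ _, rotm_lt _ _, ?_, ?_⟩
    · rw [(rot_of h2 s).1, (rot_of h3 s).2]
      exact h4
    · rw [Set.image_union, image_fs, image_fs]

theorem isTransitive_theLines : IsTransitive theLines := by
  intro x y
  refine ⟨shift (y.1 - x.1) (y.2 - x.2), fun L => ⟨fun h => ?_, shift_mem _ _⟩, ?_⟩
  · have h1 := shift_mem (-(y.1 - x.1)) (-(y.2 - x.2)) h
    rw [← shift_symm, ← Set.image_comp] at h1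
    simpa using h1
  · rw [shift_apply]
    ext <;> simp

/-! ## positions as sorted lists of fibres -/

/-- the position is described by a sorted list of fibres -/
structure Rep (l : List (ℚ × Fib)) (χ : Pt → Fin 3) : Prop where
  sorted : l.Pairwise (fun u v => u.1 < v.1)
  on : ∀ e ∈ l, ∀ x, χ (x, e.1) = e.2 x
  off : ∀ v : Pt, (∀ e ∈ l, e.1 ≠ v.2) → χ v = 0

/-- add the point `(x, q)` for the player `v` -/
def ins (q : ℚ) (x : Fin 7) (v : Fin 3) : List (ℚ × Fib) → List (ℚ × Fib)
  | [] => [(q, single x v)]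
  | (p, f) :: t => if q < p then (q, single x v) :: (p, f) :: t
      else if q = p then (p, Function.update f x v) :: t
      else (p, f) :: ins q x v t

theorem mem_ins_of_ne {q : ℚ} {x : Fin 7} {v : Fin 3} {e : ℚ × Fib} (he : e.1 ≠ q)
    (l : List (ℚ × Fib)) : e ∈ ins q x v l ↔ e ∈ l := by
  induction l with
  | nil =>
    simp only [ins, List.mem_singleton, List.not_mem_nil, iff_false]
    rintro rfl
    exact he rfl
  | cons a t ih =>
    obtain ⟨p, f⟩ := a
    simp only [ins]
    split_ifs with h1 h2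
    · simp only [List.mem_cons]
      constructor
      · rintro (rfl | h)
        · exact absurd rfl he
        · exact h
      · exact Or.inr
    · simp only [List.mem_cons]
      constructor
      · rintro (rfl | h)
        · exact absurd h2.symm he
        · exact Or.inr h
      · rintro (rfl | h)
        · exact absurd h2.symm he
        · exact Or.inr h
    · simp only [List.mem_cons, ih]

theorem exists_mem_ins (q : ℚ) (x : Fin 7) (v : Fin 3) (l : List (ℚ × Fib)) :
    ∃ e ∈ ins q x v l, e.1 = q := by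
  induction l with
  | nil => exact ⟨(q, single x v), by simp [ins], rfl⟩
  | cons a t ih =>
    obtain ⟨p, f⟩ := a
    simp only [ins]
    split_ifs with h1 h2
    · exact ⟨(q, single x v), by simp, rfl⟩
    · exact ⟨(p, Function.update f x v), by simp, h2.symm⟩
    · obtain ⟨e, h3, h4⟩ := ih
      exact ⟨e, by simp [h3], h4⟩

theorem mem_ins_eq {q : ℚ} {x : Fin 7} {v : Fin 3} {l : List (ℚ × Fib)}
    (hs : l.Pairwise (fun u v => u.1 < v.1)) {e : ℚ × Fib} (he : e ∈ ins q x v l) (hq : e.1 = q) :
    (∃ f, (q, f) ∈ l ∧ e.2 = Function.update f x v) ∨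
      ((∀ e' ∈ l, e'.1 ≠ q) ∧ e.2 = single x v) := by
  induction l with
  | nil =>
    simp only [ins, List.mem_singleton] at he
    exact Or.inr ⟨by simp, by rw [he]⟩
  | cons a t ih =>
    obtain ⟨p, f⟩ := a
    rw [List.pairwise_cons] at hs
    simp only [ins] at he
    split_ifs at he with h1 h2
    · right
      have hall : ∀ e' ∈ (p, f) :: t, e'.1 ≠ q := by
        intro e' he'
        rcases List.mem_cons.1 he' with rfl | h
        · exact h1.ne'
        · exact (h1.trans (hs.1 e' h)).ne'
      refine ⟨hall, ?_⟩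
      rcases List.mem_cons.1 he with rfl | h
      · rfl
      · exact absurd hq (hall e h)
    · rcases List.mem_cons.1 he with rfl | h
      · exact Or.inl ⟨f, by rw [h2]; exact List.mem_cons_self, rfl⟩
      · have := hs.1 e h
        simp only at this
        rw [hq, h2] at this
        exact absurd this (lt_irrefl _)
    · rcases List.mem_cons.1 he with rfl | h
      · exact absurd hq.symm h2
      · rcases ih hs.2 h with ⟨g, h3, h4⟩ | ⟨h3, h4⟩
        · exact Or.inl ⟨g, List.mem_cons_of_mem _ h3, h4⟩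
        · right
          refine ⟨?_, h4⟩
          intro e' he'
          rcases List.mem_cons.1 he' with rfl | h'
          · exact fun h5 => h2 h5.symm
          · exact h3 e' h'

theorem sorted_ins {q : ℚ} {x : Fin 7} {v : Fin 3} {l : List (ℚ × Fib)}
    (hs : l.Pairwise (fun u v => u.1 < v.1)) :
    (ins q x v l).Pairwise (fun u v => u.1 < v.1) := by
  induction l with
  | nil => simp [ins]
  | cons a t ih =>
    obtain ⟨p, f⟩ := a
    have hs' := hs
    rw [List.pairwise_cons] at hs
    simp only [ins]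
    split_ifs with h1 h2
    · rw [List.pairwise_cons]
      refine ⟨?_, hs'⟩
      intro e he
      rcases List.mem_cons.1 he with rfl | h
      · exact h1
      · exact h1.trans (hs.1 e h)
    · rw [List.pairwise_cons]
      exact ⟨hs.1, hs.2⟩
    · rw [List.pairwise_cons]
      refine ⟨?_, ih hs.2⟩
      intro e he
      show p < e.1
      by_cases hq : e.1 = q
      · rw [hq]
        exact lt_of_le_of_ne (not_lt.1 h1) (fun h => h2 h.symm)
      · exact hs.1 e ((mem_ins_of_ne hq t).1 he)

theorem rep_ins {l : List (ℚ × Fib)} {χ : Pt → Fin 3} (h : Rep l χ) (q : ℚ) (x : Fin 7) (v : Fin 3) :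
    Rep (ins q x v l) (put χ (x, q) v) := by
  refine ⟨sorted_ins h.sorted, ?_, ?_⟩
  · intro e he y
    by_cases hq : e.1 = q
    · rcases mem_ins_eq h.sorted he hq with ⟨f, h1, h2⟩ | ⟨h1, h2⟩
      · rw [h2, hq]
        by_cases hy : y = x
        · subst hy
          rw [put_same, Function.update_self]
        · rw [put_ne _ _ (by simpa using hy), Function.update_of_ne hy]
          exact h.on (q, f) h1 y
      · rw [h2, hq]
        by_cases hy : y = x
        · subst hy
          rw [put_same, single, Function.update_self]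
        · rw [put_ne _ _ (by simpa using hy), single, Function.update_of_ne hy]
          exact h.off (y, q) h1
    · rw [put_ne _ _ (fun h1 => hq (congrArg Prod.snd h1))]
      exact h.on e ((mem_ins_of_ne hq l).1 he) y
  · intro z hz
    obtain ⟨e, he, heq⟩ := exists_mem_ins q x v l
    have hzq : z.2 ≠ q := fun h1 => hz e he (by rw [heq, h1])
    rw [put_ne _ _ (fun h1 => hzq (congrArg Prod.snd h1))]
    apply h.off
    intro e' he' h1
    exact hz e' ((mem_ins_of_ne (by rw [h1]; exact hzq) l).2 he') h1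

/-- classes of the fibres -/
def cll (l : List (ℚ × Fib)) : List ℕ := l.map fun e => cl e.2

theorem cll_ins_mem (q : ℚ) (x : Fin 7) (l : List (ℚ × Fib))
    (h : ∀ e ∈ l, e.1 = q → e.2 x = 0) : cll (ins q x 2 l) ∈ replies2 (cll l) := by
  induction l with
  | nil => simp [cll, ins, replies2, (cl_single x).2]
  | cons a t ih =>
    obtain ⟨p, f⟩ := a
    simp only [ins]
    split_ifs with h1 h2
    · simp [cll, replies2, (cl_single x).2]
    · have h3 := cl_update2 f x (h (p, f) List.mem_cons_self h2.symm)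
      simp only [cll, List.map_cons, replies2, List.mem_cons, List.mem_append, List.mem_map]
      exact Or.inr (Or.inl ⟨_, h3, rfl⟩)
    · have h3 := ih fun e he => h e (List.mem_cons_of_mem _ he)
      simp only [cll, List.map_cons, replies2, List.mem_cons, List.mem_append, List.mem_map]
      exact Or.inr (Or.inr ⟨_, h3, rfl⟩)

theorem exists_ins (l : List (ℚ × Fib)) (hs : l.Pairwise (fun u v => u.1 < v.1)) :
    ∀ (w : List ℕ), succ1 (cll l) w = true → ∀ b : ℚ, (∀ e ∈ l, b < e.1) →
      ∃ q x, b < q ∧ (∀ e ∈ l, e.1 = q → e.2 x = 0) ∧ cll (ins q x 1 l) = w := by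
  induction l with
  | nil =>
    intro w hw b _
    simp only [cll, List.map_nil, succ1, beq_iff_eq] at hw
    refine ⟨b + 1, 0, by linarith, by simp, ?_⟩
    rw [hw]
    simp [cll, ins, (cl_single 0).1]
  | cons a t ih =>
    obtain ⟨p, f⟩ := a
    rw [List.pairwise_cons] at hs
    intro w hw b hb
    have hbp : b < p := hb (p, f) List.mem_cons_self
    cases w with
    | nil => simp [cll, succ1] at hw
    | cons d u =>
      simp only [cll, List.map_cons, succ1, Bool.or_eq_true, Bool.and_eq_true, beq_iff_eq,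
        List.elem_iff] at hw
      rcases hw with (⟨h1, h2⟩ | ⟨h1, h2⟩) | ⟨h1, h2⟩
      · obtain ⟨q, x, h3, h4, h5⟩ := ih hs.2 u h2 p hs.1
        refine ⟨q, x, hbp.trans h3, ?_, ?_⟩
        · intro e he hq
          rcases List.mem_cons.1 he with rfl | h
          · exact absurd hq h3.ne
          · exact h4 e h hq
        · simp only [ins, if_neg (not_lt.2 h3.le), if_neg h3.ne']
          show cl f :: cll (ins q x 1 t) = d :: u
          rw [h5, h1]
      · obtain ⟨j, h3, h4⟩ := exists_update1 f d h2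
        refine ⟨p, j, hbp, ?_, ?_⟩
        · intro e he hq
          rcases List.mem_cons.1 he with rfl | h
          · exact h3
          · exact absurd hq (hs.1 e h).ne'
        · simp only [ins, if_neg (lt_irrefl p), if_true]
          show cl (Function.update f j 1) :: cll t = d :: u
          rw [h4]
          exact congrArg _ h1
      · refine ⟨(b + p) / 2, 0, by linarith, ?_, ?_⟩
        · intro e he hq
          exfalso
          rcases List.mem_cons.1 he with rfl | h
          · simp only at hq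
            linarith
          · have := hs.1 e h
            simp only at this
            linarith
        · have h3 : (b + p) / 2 < p := by linarith
          simp only [ins, if_pos h3]
          show cl (single 0 1) :: cl f :: cll t = d :: u
          rw [(cl_single 0).1, h1, h2]
          rfl

/-! ## unsafe positions of P2 contain a line -/

theorem numTrue_one {e : ℕ → Bool} {l : List (ℚ × Fib)} (h : 1 ≤ numTrue e (cll l)) :
    ∃ u ∈ l, e (cl u.2) = true := by
  induction l with
  | nil => simp [cll, numTrue] at h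
  | cons a t ih =>
    by_cases ha : e (cl a.2) = true
    · exact ⟨a, List.mem_cons_self, ha⟩
    · have h1 : 1 ≤ numTrue e (cll t) := by
        have : numTrue e (cll (a :: t)) = (bif e (cl a.2) then 1 else 0) + numTrue e (cll t) := rfl
        rw [this] at h
        simp only [Bool.not_eq_true] at ha
        simpa [ha] using h
      obtain ⟨u, hu, h2⟩ := ih h1
      exact ⟨u, List.mem_cons_of_mem _ hu, h2⟩

theorem numTrue_two {e : ℕ → Bool} {l : List (ℚ × Fib)} (hs : l.Pairwise (fun u v => u.1 < v.1))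
    (h : 2 ≤ numTrue e (cll l)) :
    ∃ u ∈ l, ∃ v ∈ l, u.1 < v.1 ∧ e (cl u.2) = true ∧ e (cl v.2) = true := by
  induction l with
  | nil => simp [cll, numTrue] at h
  | cons a t ih =>
    rw [List.pairwise_cons] at hs
    have h0 : numTrue e (cll (a :: t)) = (bif e (cl a.2) then 1 else 0) + numTrue e (cll t) := rfl
    rw [h0] at h
    by_cases ha : e (cl a.2) = true
    · rw [ha, cond_true] at h
      obtain ⟨v, hv, h1⟩ := numTrue_one (l := t) (e := e) (by omega)
      exact ⟨a, List.mem_cons_self, v, List.mem_cons_of_mem _ hv, hs.1 v hv, ha, h1⟩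
    · simp only [Bool.not_eq_true] at ha
      rw [ha, cond_false, Nat.zero_add] at h
      obtain ⟨u, hu, v, hv, h1⟩ := ih hs.2 h
      exact ⟨u, List.mem_cons_of_mem _ hu, v, List.mem_cons_of_mem _ hv, h1⟩

theorem numTrue_three {e : ℕ → Bool} {l : List (ℚ × Fib)} (hs : l.Pairwise (fun u v => u.1 < v.1))
    (h : 3 ≤ numTrue e (cll l)) :
    ∃ u ∈ l, ∃ v ∈ l, ∃ w ∈ l, u.1 < v.1 ∧ v.1 < w.1 ∧ e (cl u.2) = true ∧ e (cl v.2) = true ∧
      e (cl w.2) = true := by
  induction l with
  | nil => simp [cll, numTrue] at h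
  | cons a t ih =>
    rw [List.pairwise_cons] at hs
    have h0 : numTrue e (cll (a :: t)) = (bif e (cl a.2) then 1 else 0) + numTrue e (cll t) := rfl
    rw [h0] at h
    by_cases ha : e (cl a.2) = true
    · rw [ha, cond_true] at h
      obtain ⟨v, hv, w, hw, h1, h2, h3⟩ := numTrue_two (l := t) (e := e) hs.2 (by omega)
      exact ⟨a, List.mem_cons_self, v, List.mem_cons_of_mem _ hv, w, List.mem_cons_of_mem _ hw,
        hs.1 v hv, h1, ha, h2, h3⟩
    · simp only [Bool.not_eq_true] at ha
      rw [ha, cond_false, Nat.zero_add] at h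
      obtain ⟨u, hu, v, hv, w, hw, h1⟩ := ih hs.2 h
      exact ⟨u, List.mem_cons_of_mem _ hu, v, List.mem_cons_of_mem _ hv, w,
        List.mem_cons_of_mem _ hw, h1⟩

theorem pairBad_exists {L U : ℕ → ℕ} {l : List (ℚ × Fib)}
    (hs : l.Pairwise (fun u v => u.1 < v.1)) (h : pairBad L U (cll l) = true) :
    ∃ u ∈ l, ∃ v ∈ l, u.1 < v.1 ∧ L (cl u.2) &&& U (cl v.2) ≠ 0 := by
  induction l with
  | nil => simp [cll, pairBad] at h
  | cons a t ih =>
    rw [List.pairwise_cons] at hs
    have h0 : pairBad L U (cll (a :: t)) =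
      ((cll t).any (fun d => !(L (cl a.2) &&& U d == 0)) || pairBad L U (cll t)) := rfl
    rw [h0, Bool.or_eq_true] at h
    rcases h with h | h
    · rw [List.any_eq_true] at h
      obtain ⟨d, hd, h1⟩ := h
      obtain ⟨v, hv, rfl⟩ := List.mem_map.1 hd
      refine ⟨a, List.mem_cons_self, v, List.mem_cons_of_mem _ hv, hs.1 v hv, ?_⟩
      simpa using h1
    · obtain ⟨u, hu, v, hv, h1⟩ := ih hs.2 h
      exact ⟨u, List.mem_cons_of_mem _ hu, v, List.mem_cons_of_mem _ hv, h1⟩

theorem pairBad_of {L U : ℕ → ℕ} {l : List (ℚ × Fib)}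
    (hs : l.Pairwise (fun u v => u.1 < v.1)) {u v : ℚ × Fib} (hu : u ∈ l) (hv : v ∈ l)
    (huv : u.1 < v.1) (h : L (cl u.2) &&& U (cl v.2) ≠ 0) : pairBad L U (cll l) = true := by
  induction l with
  | nil => simp at hu
  | cons a t ih =>
    rw [List.pairwise_cons] at hs
    have h0 : pairBad L U (cll (a :: t)) =
      ((cll t).any (fun d => !(L (cl a.2) &&& U d == 0)) || pairBad L U (cll t)) := rfl
    rw [h0, Bool.or_eq_true]
    rcases List.mem_cons.1 hu with rfl | hu'
    · rcases List.mem_cons.1 hv with rfl | hv'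
      · exact absurd huv (lt_irrefl _)
      · left
        rw [List.any_eq_true]
        exact ⟨cl v.2, List.mem_map.2 ⟨v, hv', rfl⟩, by simpa using h⟩
    · rcases List.mem_cons.1 hv with rfl | hv'
      · exact absurd huv (not_lt.2 (hs.1 u hu').le)
      · exact Or.inr (ih hs.2 hu' hv')

theorem hasLine_of_unsafe {l : List (ℚ × Fib)} {χ : Pt → Fin 3} (h : Rep l χ)
    (hu : unsafe2 (cll l) = true) : HasLine theLines (own χ 2) := by
  unfold unsafe2 at hu
  rw [Bool.or_eq_true] at hu
  rcases hu with hu | hu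
  · obtain ⟨u, hu, v, hv, w, hw, h1, h2, h3, h4, h5⟩ :=
      numTrue_three h.sorted (Nat.le_of_ble_eq_true hu)
    obtain ⟨i, hi⟩ := (eb_iff _).1 h3
    obtain ⟨j, hj⟩ := (eb_iff _).1 h4
    obtain ⟨k, hk⟩ := (eb_iff _).1 h5
    refine ⟨{(i, u.1), (j, v.1), (k, w.1)}, Or.inl ⟨(i, u.1), (j, v.1), (k, w.1), h1, h2, rfl⟩, ?_⟩
    intro z hz
    simp only [Set.mem_insert_iff, Set.mem_singleton_iff] at hz
    rcases hz with rfl | rfl | rfl
    · show χ _ = 2
      rw [h.on u hu, hi]
    · show χ _ = 2
      rw [h.on v hv, hj]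
    · show χ _ = 2
      rw [h.on w hw, hk]
  · obtain ⟨u, hu, v, hv, h1, h2⟩ := pairBad_exists h.sorted hu
    rw [(okS_tables u.2).2.2.1, (okS_tables v.2).2.2.2.1] at h2
    refine ⟨fs u.1 (msk 2 (idx u.2)) ∪ fs v.1 (msk 2 (idx v.2)),
      Or.inr ⟨u.1, v.1, _, _, h1, msk_lt _ _, msk_lt _ _, h2, rfl⟩, ?_⟩
    have key : ∀ e ∈ l, fs e.1 (msk 2 (idx e.2)) ⊆ own χ 2 := by
      rintro e he ⟨x, q⟩ ⟨hq, hx⟩
      simp only at hq hx
      have h3 := testBit_msk e.2 2 x
      simp only [Fin.val_two] at h3
      rw [h3, decide_eq_true_eq] at hx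
      show χ (x, q) = 2
      rw [hq, h.on e he, hx]
    exact Set.union_subset (key u hu) (key v hv)

/-! ## safe positions of P1 contain no line -/

theorem exists_mem_of_ne {l : List (ℚ × Fib)} {χ : Pt → Fin 3} (h : Rep l χ) {z : Pt}
    (hz : χ z ≠ 0) : ∃ e ∈ l, e.1 = z.2 ∧ e.2 z.1 = χ z := by
  by_contra hcon
  push Not at hcon
  apply hz
  apply h.off
  intro e he h1
  apply hcon e he h1
  rw [← h.on e he, h1]

theorem numTrue_eq (e : ℕ → Bool) (l : List (ℚ × Fib)) :
    numTrue e (cll l) = (l.filter fun u => e (cl u.2)).length := by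
  induction l with
  | nil => rfl
  | cons a t ih =>
    have h0 : numTrue e (cll (a :: t)) = (bif e (cl a.2) then 1 else 0) + numTrue e (cll t) := rfl
    rw [h0, ih, List.filter_cons]
    cases h1 : e (cl a.2) <;> simp [Nat.add_comm]

theorem three_le_numTrue {e : ℕ → Bool} {l : List (ℚ × Fib)} {u v w : ℚ × Fib}
    (hu : u ∈ l) (hv : v ∈ l) (hw : w ∈ l) (huv : u.1 < v.1) (hvw : v.1 < w.1)
    (h1 : e (cl u.2) = true) (h2 : e (cl v.2) = true) (h3 : e (cl w.2) = true) :
    3 ≤ numTrue e (cll l) := by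
  classical
  rw [numTrue_eq]
  have hsub : ({u, v, w} : Finset (ℚ × Fib)) ⊆ (l.filter fun u => e (cl u.2)).toFinset := by
    intro z hz
    simp only [Finset.mem_insert, Finset.mem_singleton] at hz
    rw [List.mem_toFinset, List.mem_filter]
    rcases hz with rfl | rfl | rfl
    · exact ⟨hu, h1⟩
    · exact ⟨hv, h2⟩
    · exact ⟨hw, h3⟩
  have hcard : ({u, v, w} : Finset (ℚ × Fib)).card = 3 := by
    rw [Finset.card_eq_three]
    refine ⟨u, v, w, ?_, ?_, ?_, rfl⟩
    · rintro rfl; exact lt_irrefl _ huv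
    · rintro rfl; exact lt_irrefl _ (huv.trans hvw)
    · rintro rfl; exact lt_irrefl _ hvw
  calc 3 = ({u, v, w} : Finset (ℚ × Fib)).card := hcard.symm
    _ ≤ _ := Finset.card_le_card hsub
    _ ≤ _ := List.toFinset_card_le _

theorem exists_bit {a : ℕ} (ha : a < 128) (h : a ≠ 0) : ∃ j : Fin 7, a.testBit j = true := by
  by_contra hcon
  push Not at hcon
  apply h
  apply Nat.eq_of_testBit_eq
  intro i
  rw [Nat.zero_testBit]
  by_cases hi : i < 7
  · simpa using hcon ⟨i, hi⟩
  · apply Nat.testBit_lt_two_pow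
    calc a < 128 := ha
      _ = 2 ^ 7 := rfl
      _ ≤ 2 ^ i := Nat.pow_le_pow_right (by norm_num) (by omega)

theorem no_line_of_safe {l : List (ℚ × Fib)} {χ : Pt → Fin 3} (h : Rep l χ)
    (hs : safe1 (cll l) = true) : ¬ HasLine theLines (own χ 1) := by
  unfold safe1 at hs
  rw [Bool.and_eq_true, Bool.not_eq_true'] at hs
  have hnum := Nat.le_of_ble_eq_true hs.1
  rintro ⟨L, hL, hsub⟩
  rcases hL with ⟨u, v, w, h1, h2, rfl⟩ | ⟨p, q, a, b, h1, h2, h3, h4, rfl⟩
  · have cu : χ u = 1 := hsub (by simp)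
    have cv : χ v = 1 := hsub (by simp)
    have cw : χ w = 1 := hsub (by simp)
    obtain ⟨e1, m1, q1, x1⟩ := exists_mem_of_ne h (z := u) (by rw [cu]; decide)
    obtain ⟨e2, m2, q2, x2⟩ := exists_mem_of_ne h (z := v) (by rw [cv]; decide)
    obtain ⟨e3, m3, q3, x3⟩ := exists_mem_of_ne h (z := w) (by rw [cw]; decide)
    have := three_le_numTrue (e := ea) m1 m2 m3 (by rw [q1, q2]; exact h1)
      (by rw [q2, q3]; exact h2) ((ea_iff _).2 ⟨u.1, by rw [x1, cu]⟩)
      ((ea_iff _).2 ⟨v.1, by rw [x2, cv]⟩) ((ea_iff _).2 ⟨w.1, by rw [x3, cw]⟩)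
    omega
  · have ha0 : a ≠ 0 := by
      rintro rfl
      rw [lo_zero, Nat.zero_and] at h4
      exact h4 rfl
    have hb0 : b ≠ 0 := by
      rintro rfl
      rw [up_zero, Nat.and_zero] at h4
      exact h4 rfl
    have key : ∀ (r : ℚ) (c : ℕ), c < 128 → c ≠ 0 → fs r c ⊆ own χ 1 →
        ∃ e ∈ l, e.1 = r ∧ c &&& msk 1 (idx e.2) = c := by
      intro r c hc hc0 hcs
      obtain ⟨j, hj⟩ := exists_bit hc hc0
      have c1 : χ (j, r) = 1 := hcs ⟨rfl, hj⟩
      obtain ⟨e, m, hq, -⟩ := exists_mem_of_ne h (z := (j, r)) (by rw [c1]; decide)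
      refine ⟨e, m, hq, ?_⟩
      have := land_msk_eq hc e.2 1 (by
        intro i hi
        have c2 : χ (i, r) = 1 := hcs ⟨rfl, hi⟩
        rw [← c2, ← h.on e m, hq])
      simpa using this
    obtain ⟨e1, m1, q1, k1⟩ := key p a h2 ha0 (Set.subset_union_left.trans hsub)
    obtain ⟨e2, m2, q2, k2⟩ := key q b h3 hb0 (Set.subset_union_right.trans hsub)
    have mo1 := (mono_of h2 (msk_lt _ _) k1).1
    have mo2 := (mono_of h3 (msk_lt _ _) k2).2
    have hbad := pairBad_of (L := la) (U := ua) h.sorted m1 m2 (by rw [q1, q2]; exact h1) (by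
      rw [(okS_tables e1.2).1, (okS_tables e2.2).2.1]
      intro h0
      apply h4
      rw [← mo1, ← mo2]
      have : ∀ x y z t : ℕ, x &&& y &&& (z &&& t) = x &&& z &&& (y &&& t) := by
        intro x y z t
        apply Nat.eq_of_testBit_eq
        intro i
        simp only [Nat.testBit_and]
        cases x.testBit i <;> cases y.testBit i <;> cases z.testBit i <;> cases t.testBit i <;> rfl
      rw [this, h0, Nat.and_zero])
    rw [hs.2] at hbad
    exact Bool.false_ne_true hbad

/-! ## the induction over the levels -/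

theorem BT.all_mem {f : List ℕ → Bool} {w : List ℕ} {x : ℕ} {t : BT} (h : t.all f = true)
    (hm : t.mem w x = true) : f w = true := by
  induction t with
  | leaf => simp [BT.mem] at hm
  | node l k p r ihl ihr =>
    simp only [BT.all, Bool.and_eq_true] at h
    simp only [BT.mem] at hm
    cases h1 : Nat.blt x k
    · rw [h1, cond_false] at hm
      cases h2 : Nat.blt k x
      · rw [h2, cond_false, beq_iff_eq] at hm
        rw [hm]
        exact h.1
      · rw [h2, cond_true] at hm
        exact ihr h.2.2 hm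
    · rw [h1, cond_true] at hm
      exact ihl h.2.1 hm

theorem step_of_check {t' : BT} {l : List (ℚ × Fib)} {χ : Pt → Fin 3} (h : Rep l χ)
    (hc : checkPos t' (cll l) = true) (y : Pt) (hy : χ y = 0) :
    HasLine theLines (own (put χ y 2) 2) ∨
      ∃ x, put χ y 2 x = 0 ∧ ∃ l', Rep l' (put (put χ y 2) x 1) ∧
        ¬ HasLine theLines (own (put (put χ y 2) x 1) 1) ∧ t'.mem (cll l') (enc (cll l')) = true := by
  obtain ⟨x, q⟩ := y
  have hr := rep_ins h q x 2
  have hmem := cll_ins_mem q x l (by
    intro e he hq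
    rw [← h.on e he, hq]
    exact hy)
  unfold checkPos at hc
  have h1 := List.all_eq_true.1 hc _ hmem
  rw [Bool.or_eq_true] at h1
  rcases h1 with h1 | h1
  · exact Or.inl (hasLine_of_unsafe hr h1)
  · right
    simp only [Bool.and_eq_true] at h1
    obtain ⟨h2, h3, h4⟩ := h1
    generalize ansT.find (enc (cll (ins q x 2 l))) = w at h2 h3 h4
    -- a lower bound for the base points
    obtain ⟨b, hb⟩ : ∃ b : ℚ, ∀ e ∈ ins q x 2 l, b < e.1 := by
      have : ∀ m : List (ℚ × Fib), ∃ b : ℚ, ∀ e ∈ m, b < e.1 := by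
        intro m
        induction m with
        | nil => exact ⟨0, by simp⟩
        | cons a t ih =>
          obtain ⟨b, hb⟩ := ih
          refine ⟨min b (a.1 - 1), ?_⟩
          intro e he
          rcases List.mem_cons.1 he with rfl | h
          · exact (min_le_right _ _).trans_lt (by linarith)
          · exact (min_le_left _ _).trans_lt (hb e h)
      exact this _
    obtain ⟨q', x', -, h6, h7⟩ := exists_ins _ hr.sorted w h2 b hb
    have hr' := rep_ins hr q' x' 1
    refine ⟨(x', q'), ?_, _, hr', ?_, ?_⟩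
    · by_contra hne
      obtain ⟨e, m, e1, e2⟩ := exists_mem_of_ne hr hne
      apply hne
      rw [← e2]
      exact h6 e m e1
    · apply no_line_of_safe hr'
      rw [h7]
      exact h3
    · rw [h7]
      exact h4

theorem W2_of_levels (ts : List BT) (hc : checkLevels ts = true) :
    ∀ t ∈ ts.head?, ∀ (l : List (ℚ × Fib)) (χ : Pt → Fin 3), Rep l χ →
      t.mem (cll l) (enc (cll l)) = true → W2 theLines ts.length χ := by
  induction ts with
  | nil => intro t ht; simp at ht
  | cons t0 rest ih =>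
    intro t ht l χ hr hm
    have ht0 : t0 = t := by simpa using ht
    subst ht0
    intro y hy
    cases rest with
    | nil =>
      have h1 : t0.all (checkPos .leaf) = true := hc
      have h2 := BT.all_mem h1 hm
      rcases step_of_check hr h2 y hy with h3 | ⟨x, -, l', -, -, h6⟩
      · exact Or.inl h3
      · simp [BT.mem] at h6
    | cons t1 ts' =>
      have h1 : (t0.all (checkPos t1) && checkLevels (t1 :: ts')) = true := hc
      rw [Bool.and_eq_true] at h1
      have h2 := BT.all_mem h1.1 hm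
      rcases step_of_check hr h2 y hy with h3 | ⟨x, h3, l', h4, h5, h6⟩
      · exact Or.inl h3
      · exact Or.inr ⟨x, h3, h5, ih h1.2 t1 (by simp) l' _ h4 h6⟩

theorem isP1Win_theLines : IsP1Win theLines := by
  have hr : Rep (ins 0 0 1 []) (put (fun _ => 0) ((0 : Fin 7), (0 : ℚ)) 1) := by
    apply rep_ins
    exact ⟨List.Pairwise.nil, by simp, fun _ _ => rfl⟩
  have hcl : cll (ins 0 0 1 []) = [1] := by
    simp [cll, ins, (cl_single 0).1]
  apply isP1Win_of_W2 theLines levels.length ((0 : Fin 7), (0 : ℚ))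
  · have h1 := no_line_of_safe hr (by rw [hcl]; decide +kernel)
    rw [own_put] at h1
    have h2 : own (fun _ : Pt => (0 : Fin 3)) 1 = ∅ := by
      ext z
      simp [own]
    rw [h2] at h1
    simpa using h1
  · apply W2_of_levels levels checkLevels_levels lev1 (by simp [levels]) _ _ hr
    rw [hcl]
    decide +kernel

end Pool.Agent.Lib.MP_675c19_co
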