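import Pool.Agent.Lib.MP_675c19_co.Data

/-! # The finite checks for the infinite transitive avoidance game of MP_675c19_co, helper20 -/

set_option autoImplicit false

namespace Pool.Agent.Lib.MP_675c19_co

/-- field number `i` of width `w` in a table -/
def fld (t w i : ℕ) : ℕ := (t >>> (w * i)) % 2 ^ w

/-- class of a state of a fibre -/
def cls (s : ℕ) : ℕ := fld clsT 8 s
def la (c : ℕ) : ℕ := fld laT 32 c
def ua (c : ℕ) : ℕ := fld uaT 32 c
def lb (c : ℕ) : ℕ := fld lbT 32 c
def ub (c : ℕ) : ℕ := fld ubT 32 c
/-- lower and upper patterns contained in a subset of the fibre (given by a bit mask) -/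
def lo (a : ℕ) : ℕ := fld loT 32 a
def up (a : ℕ) : ℕ := fld upT 32 a
def ea (c : ℕ) : Bool := eaT.testBit c
def eb (c : ℕ) : Bool := ebT.testBit c

/-- bytes of a number, until it is zero -/
def bytes : ℕ → ℕ → List ℕ
  | 0, _ => []
  | f + 1, n => bif n == 0 then [] else (n % 256) :: bytes f (n / 256)

def next1 (c : ℕ) : List ℕ := bytes 7 (fld n1T 56 c)
def next2 (c : ℕ) : List ℕ := bytes 7 (fld n2T 56 c)

/-- code of a position -/
def enc (p : List ℕ) : ℕ := p.foldl (fun x c => 256 * x + c) 1

def BT.all (f : List ℕ → Bool) : BT → Bool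
  | .leaf => true
  | .node l _ p r => f p && (l.all f && r.all f)

def BT.find (x : ℕ) : BT → List ℕ
  | .leaf => []
  | .node l k p r => bif Nat.blt x k then l.find x else bif Nat.blt k x then r.find x else p

def BT.mem (w : List ℕ) (x : ℕ) : BT → Bool
  | .leaf => false
  | .node l k p r => bif Nat.blt x k then l.mem w x else bif Nat.blt k x then r.mem w x else w == p

/-- all positions after a move of P2 -/
def replies2 : List ℕ → List (List ℕ)
  | [] => [[2]]
  | c :: t => (2 :: c :: t) :: ((next2 c).map (fun d => d :: t) ++ (replies2 t).map (fun r => c :: r))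

/-- `w` is a position after a move of P1 in `r` -/
def succ1 : List ℕ → List ℕ → Bool
  | [], w => w == [1]
  | _ :: _, [] => false
  | c :: t, d :: u => (c == d && succ1 t u) || (t == u && (next1 c).elem d) || (d == 1 && u == c :: t)

def pairBad (L U : ℕ → ℕ) : List ℕ → Bool
  | [] => false
  | c :: t => t.any (fun d => !(L c &&& U d == 0)) || pairBad L U t

def numTrue (e : ℕ → Bool) : List ℕ → ℕ
  | [] => 0
  | c :: t => (bif e c then 1 else 0) + numTrue e t

def unsafe2 (r : List ℕ) : Bool := Nat.ble 3 (numTrue eb r) || pairBad lb ub r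
def safe1 (r : List ℕ) : Bool := Nat.ble (numTrue ea r) 2 && !pairBad la ua r

def checkPos (t' : BT) (p : List ℕ) : Bool :=
  (replies2 p).all fun r => unsafe2 r ||
    ((fun w => succ1 r w && (safe1 w && t'.mem w (enc w))) (ansT.find (enc r)))

def checkLevels : List BT → Bool
  | [] => true
  | [t] => t.all (checkPos .leaf)
  | t :: t' :: ts => t.all (checkPos t') && checkLevels (t' :: ts)

/-- base 3 digit -/
def dig (s j : ℕ) : ℕ := s / 3 ^ j % 3

/-- bit mask of the cells with digit `d` -/
def msk (d s : ℕ) : ℕ := Nat.ofBits (n := 7) fun j => dig s j == d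

/-- bit mask rotated by `r` -/
def rotm (r : Fin 7) (a : ℕ) : ℕ := Nat.ofBits (n := 7) fun j => a.testBit (j - r : Fin 7)

/-- the facts about one state of a fibre -/
def okS (s : ℕ) : Bool :=
  ((List.range 7).all fun j => !(dig s j == 0) || (next2 (cls s)).elem (cls (s + 2 * 3 ^ j))) &&
  (((next1 (cls s)).all fun d => (List.range 7).any fun j => dig s j == 0 && cls (s + 3 ^ j) == d) &&
  ((la (cls s) == lo (msk 1 s)) && ((ua (cls s) == up (msk 1 s)) &&
  ((lb (cls s) == lo (msk 2 s)) && ((ub (cls s) == up (msk 2 s)) &&
  ((ea (cls s) == !(msk 1 s == 0)) && (eb (cls s) == !(msk 2 s == 0))))))))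

def okMono (a m : ℕ) : Bool :=
  !(a &&& m == a) || ((lo a &&& lo m == lo a) && (up a &&& up m == up a))

def okRot (a : ℕ) (r : Fin 7) : Bool := (lo (rotm r a) == lo a) && (up (rotm r a) == up a)

theorem okS_all : ((List.range 2187).all okS) = true := by decide +kernel

theorem okMono_all : ((List.range 128).all fun a => (List.range 128).all (okMono a)) = true := by
  decide +kernel

theorem okRot_all : ((List.range 128).all fun a => (List.finRange 7).all (okRot a)) = true := by
  decide +kernel

theorem okSingle : ((List.range 7).all fun j => cls (3 ^ j) == 1 && cls (2 * 3 ^ j) == 2) = true := by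
  decide +kernel

theorem lo_zero : lo 0 = 0 := by decide +kernel

theorem up_zero : up 0 = 0 := by decide +kernel

theorem checkLevels_levels : checkLevels levels = true := by decide +kernel

theorem lev1_eq : lev1 = .node .leaf 257 [1] .leaf := rfl

end Pool.Agent.Lib.MP_675c19_co
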