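import Pool.Agent.Lib.MP_675c19_co.Check

/-! # States of a fibre (MP_675c19_co), helper20 -/

set_option autoImplicit false

namespace Pool.Agent.Lib.MP_675c19_co

/-- state of a fibre: owner of each of the seven cells -/
abbrev Fib := Fin 7 → Fin 3

/-- number of the state -/
def idx (f : Fib) : ℕ :=
  (f 0 : ℕ) + 3 * (f 1 : ℕ) + 9 * (f 2 : ℕ) + 27 * (f 3 : ℕ) + 81 * (f 4 : ℕ) + 243 * (f 5 : ℕ) +
    729 * (f 6 : ℕ)

theorem idx_lt (f : Fib) : idx f < 2187 := by
  have h0 := (f 0).isLt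
  have h1 := (f 1).isLt
  have h2 := (f 2).isLt
  have h3 := (f 3).isLt
  have h4 := (f 4).isLt
  have h5 := (f 5).isLt
  have h6 := (f 6).isLt
  unfold idx
  omega

theorem dig_idx (f : Fib) (j : Fin 7) : dig (idx f) j = f j := by
  have h0 := (f 0).isLt
  have h1 := (f 1).isLt
  have h2 := (f 2).isLt
  have h3 := (f 3).isLt
  have h4 := (f 4).isLt
  have h5 := (f 5).isLt
  have h6 := (f 6).isLt
  unfold dig idx
  fin_cases j <;> simp <;> omega

theorem idx_update (f : Fib) (j : Fin 7) (v : Fin 3) (h : f j = 0) :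
    idx (Function.update f j v) = idx f + v * 3 ^ (j : ℕ) := by
  unfold idx
  fin_cases j <;> simp at h <;> simp [Function.update, h] <;> omega

theorem testBit_msk (f : Fib) (v : Fin 3) (j : Fin 7) :
    (msk v (idx f)).testBit j = decide (f j = v) := by
  unfold msk
  rw [Nat.testBit_ofBits_lt _ _ j.isLt]
  simp only [dig_idx]
  by_cases h : f j = v
  · simp [h]
  · have : (f j : ℕ) ≠ v := fun h1 => h (Fin.ext h1)
    simp [h, this]

theorem testBit_msk_ge (s v j : ℕ) (h : 7 ≤ j) : (msk v s).testBit j = false :=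
  Nat.testBit_ofBits_ge _ _ h

theorem msk_lt (s v : ℕ) : msk v s < 128 := Nat.ofBits_lt_two_pow _

theorem okS_of (f : Fib) : okS (idx f) = true :=
  List.all_eq_true.1 okS_all _ (List.mem_range.2 (idx_lt f))

/-- class of a state -/
def cl (f : Fib) : ℕ := cls (idx f)

theorem cl_update2 (f : Fib) (j : Fin 7) (h : f j = 0) :
    cl (Function.update f j 2) ∈ next2 (cl f) := by
  have h1 := okS_of f
  unfold okS at h1
  rw [Bool.and_eq_true, List.all_eq_true] at h1
  have h2 := h1.1 (j : ℕ) (List.mem_range.2 j.isLt)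
  rw [dig_idx, h] at h2
  simp only [Fin.val_zero, beq_self_eq_true, Bool.not_true, Bool.false_or] at h2
  rw [List.elem_iff] at h2
  unfold cl
  rw [idx_update f j 2 h]
  exact h2

theorem exists_update1 (f : Fib) (d : ℕ) (h : d ∈ next1 (cl f)) :
    ∃ j : Fin 7, f j = 0 ∧ cl (Function.update f j 1) = d := by
  have h1 := okS_of f
  unfold okS at h1
  rw [Bool.and_eq_true, Bool.and_eq_true] at h1
  have h2 := List.all_eq_true.1 h1.2.1 d h
  rw [List.any_eq_true] at h2
  obtain ⟨j, hj, hj2⟩ := h2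
  rw [Bool.and_eq_true, beq_iff_eq, beq_iff_eq] at hj2
  have hj7 := List.mem_range.1 hj
  have e1 := dig_idx f ⟨j, hj7⟩
  simp only at e1
  have e2 : f ⟨j, hj7⟩ = 0 := by
    apply Fin.ext
    rw [← e1, hj2.1]
    rfl
  refine ⟨⟨j, hj7⟩, e2, ?_⟩
  unfold cl
  rw [idx_update f _ 1 e2, ← hj2.2]
  simp

theorem okS_tables (f : Fib) : la (cl f) = lo (msk 1 (idx f)) ∧ ua (cl f) = up (msk 1 (idx f)) ∧
    lb (cl f) = lo (msk 2 (idx f)) ∧ ub (cl f) = up (msk 2 (idx f)) ∧
    ea (cl f) = !(msk 1 (idx f) == 0) ∧ eb (cl f) = !(msk 2 (idx f) == 0) := by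
  have h1 := okS_of f
  unfold okS at h1
  simp only [Bool.and_eq_true, beq_iff_eq] at h1
  exact ⟨h1.2.2.1, h1.2.2.2.1, h1.2.2.2.2.1, h1.2.2.2.2.2.1, h1.2.2.2.2.2.2.1, h1.2.2.2.2.2.2.2⟩

theorem msk_eq_zero_iff (f : Fib) (v : Fin 3) : msk v (idx f) = 0 ↔ ∀ j, f j ≠ v := by
  constructor
  · intro h j hj
    have h1 := testBit_msk f v j
    rw [h] at h1
    simp [hj] at h1
  · intro h
    apply Nat.eq_of_testBit_eq
    intro i
    rw [Nat.zero_testBit]
    by_cases hi : i < 7
    · have := testBit_msk f v ⟨i, hi⟩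
      simp only at this
      rw [this]
      simp [h]
    · exact testBit_msk_ge _ _ _ (by omega)

theorem ea_iff (f : Fib) : ea (cl f) = true ↔ ∃ j, f j = 1 := by
  rw [(okS_tables f).2.2.2.2.1, Bool.not_eq_true', beq_eq_false_iff_ne, ne_eq]
  have := msk_eq_zero_iff f 1
  simp only [Fin.val_one] at this
  rw [this]
  push Not
  rfl

theorem eb_iff (f : Fib) : eb (cl f) = true ↔ ∃ j, f j = 2 := by
  rw [(okS_tables f).2.2.2.2.2, Bool.not_eq_true', beq_eq_false_iff_ne, ne_eq]
  have := msk_eq_zero_iff f 2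
  simp only [Fin.val_two] at this
  rw [this]
  push Not
  rfl

/-- state with one point -/
def single (j : Fin 7) (v : Fin 3) : Fib := Function.update (fun _ => 0) j v

theorem cl_single (j : Fin 7) : cl (single j 1) = 1 ∧ cl (single j 2) = 2 := by
  have h := List.all_eq_true.1 okSingle j (List.mem_range.2 j.isLt)
  rw [Bool.and_eq_true, beq_iff_eq, beq_iff_eq] at h
  have h0 : idx (fun _ => 0) = 0 := rfl
  unfold cl single
  rw [idx_update _ _ _ rfl, idx_update _ _ _ rfl, h0, Nat.zero_add, Nat.zero_add]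
  simpa using h

theorem mono_of {a m : ℕ} (ha : a < 128) (hm : m < 128) (h : a &&& m = a) :
    lo a &&& lo m = lo a ∧ up a &&& up m = up a := by
  have h1 := List.all_eq_true.1 (List.all_eq_true.1 okMono_all a (List.mem_range.2 ha)) m
    (List.mem_range.2 hm)
  unfold okMono at h1
  simp only [Bool.or_eq_true, Bool.not_eq_true', beq_eq_false_iff_ne, Bool.and_eq_true,
    beq_iff_eq] at h1
  rcases h1 with h1 | h1
  · exact absurd h h1
  · exact h1

theorem rot_of {a : ℕ} (ha : a < 128) (r : Fin 7) : lo (rotm r a) = lo a ∧ up (rotm r a) = up a := by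
  have h1 := List.all_eq_true.1 (List.all_eq_true.1 okRot_all a (List.mem_range.2 ha)) r
    (List.mem_finRange r)
  unfold okRot at h1
  simpa only [Bool.and_eq_true, beq_iff_eq] using h1

theorem rotm_lt (r : Fin 7) (a : ℕ) : rotm r a < 128 := Nat.ofBits_lt_two_pow _

theorem testBit_rotm (r : Fin 7) (a : ℕ) (j : Fin 7) :
    (rotm r a).testBit j = a.testBit (j - r : Fin 7) := by
  unfold rotm
  rw [Nat.testBit_ofBits_lt _ _ j.isLt]

/-- a mask contained bit by bit in the mask of a state -/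
theorem land_msk_eq {a : ℕ} (ha : a < 128) (f : Fib) (v : Fin 3)
    (h : ∀ j : Fin 7, a.testBit j = true → f j = v) : a &&& msk v (idx f) = a := by
  apply Nat.eq_of_testBit_eq
  intro i
  rw [Nat.testBit_and]
  by_cases hi : i < 7
  · have h1 := testBit_msk f v ⟨i, hi⟩
    simp only at h1
    rw [h1]
    by_cases hb : a.testBit i = true
    · have h2 := h ⟨i, hi⟩ hb
      simp [hb, h2]
    · simp [hb]
  · have : a.testBit i = false := by
      apply Nat.testBit_lt_two_pow
      calc a < 128 := ha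
        _ = 2 ^ 7 := rfl
        _ ≤ 2 ^ i := Nat.pow_le_pow_right (by norm_num) (by omega)
    simp [this]

end Pool.Agent.Lib.MP_675c19_co
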