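import Mathlib

/-! # Infinite transitive avoidance games: the definitions of the statement (MP_675c19_co), helper20 -/

set_option autoImplicit false

namespace Pool.Agent.Lib.MP_675c19_co

/-- The set `S` contains all points of some line; a player who has claimed such a set has lost. -/
def HasLine {V : Type} (lines : Set (Set V)) (S : Set V) : Prop :=
  ∃ L ∈ lines, L ⊆ S

/-- The point that P1 claims in round `n` (rounds are numbered 0, 1, 2, ...) when P1 follows the
strategy `s`, a function of the list of the points claimed by P2 so far, and P2 claims `b 0` in
round 0, `b 1` in round 1, and so on. In each round P1 moves first. -/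
def move1 {V : Type} (s : List V → V) (b : ℕ → V) (n : ℕ) : V :=
  s ((List.range n).map b)

/-- The points claimed by P1 in the rounds `0, ..., n - 1`. -/
def claimed1 {V : Type} (s : List V → V) (b : ℕ → V) (n : ℕ) : Set V :=
  {v | ∃ i < n, move1 s b i = v}

/-- The points claimed by P2 in the rounds `0, ..., n - 1`. -/
def claimed2 {V : Type} (b : ℕ → V) (n : ℕ) : Set V :=
  {v | ∃ i < n, b i = v}

/-- The game is a P1 win: P1 has a strategy `s` such that, whatever unclaimed points `b 0, b 1, ...`
P2 claims, P1 always claims an unclaimed point and after finitely many rounds P2 has claimed all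
points of some line while P1 has not claimed all points of any line. -/
def IsP1Win {V : Type} (lines : Set (Set V)) : Prop :=
  ∃ s : List V → V, ∀ b : ℕ → V,
    (∀ n, b n ∉ claimed1 s b (n + 1) ∪ claimed2 b n) →
      (∀ n, move1 s b n ∉ claimed1 s b n ∪ claimed2 b n) ∧
      ∃ n, HasLine lines (claimed2 b n) ∧ ¬ HasLine lines (claimed1 s b n)

/-- The automorphism group of the game acts transitively on the board. -/
def IsTransitive {V : Type} (lines : Set (Set V)) : Prop :=
  ∀ x y : V, ∃ σ : Equiv.Perm V, (∀ L : Set V, σ '' L ∈ lines ↔ L ∈ lines) ∧ σ x = y

end Pool.Agent.Lib.MP_675c19_co
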